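import Pool.Agent.Lib.MP_c05127_co.AS.All

/-!
MP_c05127_co: the Tverberg-Vrecica type statement for regression depth, asymptotically for all numbers of
parts: all `k`, `d` and `r i`, for arrangements in general position or without a direction parallel to
`r i` members of `A i` for every `i`.
-/

open Pool.Agent.Lib.MP_c05127_co

namespace Pool.Agent.Results.MP_c05127_co.AsymptoticSplits

open Classical in
/-- (1) Let `1 ≤ k ≤ d`.  There is `C > 0` such that for all arrangements `A i` of hyperplanes of `ℝ^d` and all
`r i`, `i = 1, ..., d - k + 1`, such that for every `i` either `r i` is a power of two and `A i` has at least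
`(k + 1) (r i - 1) + 1` members, or `1 ≤ r i ≤ |A i| / (k + 1) - C |A i| ^ (4 / 5)`: if no direction is
parallel to at least `r i` members of `A i` for every `i`, or if the arrangements are disjoint and in general
position, then there are a `k`-dimensional linear subspace `L`, a point `q ∈ L` and partitions of the `A i`
into `r i` parts of regression depth at least one at `q` in `L`.
(2) The sizes of Q1: if `|A i| = (k + 1) (r i - 1) + 1` for every `i`, and if for every direction some `A i` has
fewer than `r i / 2` members parallel to it, or if the arrangements are disjoint and in general position,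
then the same holds with at least `r i - C (r i) ^ (4 / 5)` parts in the place of `r i`. -/
theorem result :
    (∀ d k : ℕ, 1 ≤ k → k ≤ d → ∃ C : ℝ, 0 < C ∧
      ∀ (r : Fin (d - k + 1) → ℕ) (A : Fin (d - k + 1) → Finset (Brief.Aff d)),
        (∀ i, Brief.IsArr (A i)) →
        (∀ i, (∃ e, r i = 2 ^ e ∧ (k + 1) * (r i - 1) + 1 ≤ (A i).card) ∨
          (1 ≤ r i ∧ (r i : ℝ) ≤ (A i).card / (k + 1) - C * ((A i).card : ℝ) ^ (4 / 5 : ℝ))) →
        (PP.NoDirK r A ∨ PP.GenPosK A) → PP.ConclK k r A) ∧
    (∀ d k : ℕ, 1 ≤ k → k ≤ d → ∃ C : ℝ, 0 < C ∧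
      ∀ (r : Fin (d - k + 1) → ℕ) (A : Fin (d - k + 1) → Finset (Brief.Aff d)),
        (∀ i, 1 ≤ r i) → (∀ i, Brief.IsArr (A i)) →
        (∀ i, (A i).card = (k + 1) * (r i - 1) + 1) →
        ((∀ u : Brief.E d, u ≠ 0 →
            ∃ i, 2 * ((A i).filter fun h => Brief.In (Brief.dir h) u).card < r i) ∨
          PP.GenPosK A) →
        ∃ r' : Fin (d - k + 1) → ℕ,
          (∀ i, (r i : ℝ) - C * (r i : ℝ) ^ (4 / 5 : ℝ) ≤ r' i) ∧ PP.ConclK k r' A) :=
  ⟨AS.allMain3, AS.tCor3 AS.allMain3⟩

end Pool.Agent.Results.MP_c05127_co.AsymptoticSplits
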