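import Pool.Agent.Lib.MP_c05127_co.PR.Final

/-!
MP_c05127_co: the Tverberg-Vrecica type statement for regression depth, for even `k`, when every number
of parts is `2` or a power of one odd prime `p`.
-/

open Pool.Agent.Lib.MP_c05127_co

namespace Pool.Agent.Results.MP_c05127_co.MixedRadon

/-- Let `1 ≤ k ≤ d`, `k` even, `p` an odd prime, let every `r 1, ..., r (d-k+1)` be `2` or a power of
`p` (the power `1` is allowed) and let `A i` be arrangements of `(k + 1) (r i - 1) + 1` hyperplanes of
`ℝ^d`.  Suppose that no direction is parallel to at least `r i` members of `A i` for every `i` and that,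
if `r i = 2`, no direction is parallel to all members of `A i`; or that the arrangements are disjoint and
in general position and `d ≤ k + 2`.  Then there are a `k`-dimensional linear subspace `L`,
a point `q ∈ L` and partitions of the `A i` into `r i` parts of regression depth at least one at `q`
in `L`. -/
theorem result :
    ∀ (p d k : ℕ) (r : Fin (d - k + 1) → ℕ) (A : Fin (d - k + 1) → Finset (Brief.Aff d)),
      p.Prime → p ≠ 2 → Even k → 1 ≤ k → k ≤ d → (∀ i, r i = 2 ∨ ∃ e, r i = p ^ e) →
      (∀ i, Brief.IsArr (A i)) → (∀ i, (A i).card = (k + 1) * (r i - 1) + 1) →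
      ((PP.NoDirK r A ∧
          ∀ i, r i = 2 → ∀ u : Brief.E d, u ≠ 0 → ∃ h ∈ A i, ¬ Brief.In (Brief.dir h) u) ∨
        (PP.GenPosK A ∧ d ≤ k + 2)) →
      PP.ConclK k r A :=
  PP.allMixed

end Pool.Agent.Results.MP_c05127_co.MixedRadon
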