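import Pool.Agent.Lib.MP_c05127_co.Brief
import Pool.Agent.Lib.MP_c05127_co.Main
import Pool.Agent.Lib.MP_c05127_co.Sd
import Pool.Agent.Lib.MP_c05127_co.Base
import Pool.Agent.Lib.MP_c05127_co.Small
import Pool.Agent.Lib.MP_c05127_co.WRel
import Pool.Agent.Lib.MP_c05127_co.WEx
import Pool.Agent.Lib.MP_c05127_co.PhMap
import Pool.Agent.Lib.MP_c05127_co.Desc
import Pool.Agent.Lib.MP_c05127_co.Sec
import Pool.Agent.Lib.MP_c05127_co.BU
import Pool.Agent.Lib.MP_c05127_co.Cara
import Pool.Agent.Lib.MP_c05127_co.Rem
import Pool.Agent.Lib.MP_c05127_co.Cyc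
import Pool.Agent.Lib.MP_c05127_co.Birch
import Pool.Agent.Lib.MP_c05127_co.Pair
import Pool.Agent.Lib.MP_c05127_co.Wall
import Pool.Agent.Lib.MP_c05127_co.Fc
import Pool.Agent.Lib.MP_c05127_co.Fh
import Pool.Agent.Lib.MP_c05127_co.Fz
import Pool.Agent.Lib.MP_c05127_co.Clos
import Pool.Agent.Lib.MP_c05127_co.Hfun
import Pool.Agent.Lib.MP_c05127_co.BadS
import Pool.Agent.Lib.MP_c05127_co.Field
import Pool.Agent.Lib.MP_c05127_co.Geo
import Pool.Agent.Lib.MP_c05127_co.Hyp
import Pool.Agent.Lib.MP_c05127_co.Fin
import Pool.Agent.Lib.MP_c05127_co.Gen1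
import Pool.Agent.Lib.MP_c05127_co.Gen2

/-!
MP_c05127_co: the Tverberg-Vrecica type statement for regression depth, in the case of
two-dimensional subspaces (all dimensions, all numbers of parts), for arrangements in general
position, or without a direction parallel to `r i` members of `A i` for every `i`.
-/

open Pool.Agent.Lib.MP_c05127_co

namespace Pool.Agent.Results.MP_c05127_co.PlaneSections

/-- Let `d ≥ 2`, `r 1, ..., r (d-1) ≥ 1` and let `A i` be arrangements of `3 (r i - 1) + 1`
hyperplanes of `ℝ^d`. If no direction is parallel to at least `r i` members of `A i` for every `i`,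
or if the arrangements are disjoint and in general position, then there are a plane `L` through the
origin, a point `q ∈ L` and partitions of the `A i` into `r i` parts of regression depth at least
one at `q` in `L`. -/
theorem result :
    ∀ (d : ℕ) (r : Fin (d - 1) → ℕ) (A : Fin (d - 1) → Finset (Brief.Aff d)),
      2 ≤ d → (∀ i, 1 ≤ r i) → (∀ i, Brief.IsArr (A i)) → (∀ i, (A i).card = 3 * (r i - 1) + 1) →
      (Brief.NoDir r A ∨ Brief.GenPos A) → Brief.Concl r A := by
  have hSmall := smallStmt sdStmt baseStmt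
  have hPh := phStmt wrelStmt
  have hDesc := descStmt wrelStmt wexStmt hPh
  have hBU := buStmt hSmall hDesc secStmt
  have hBirch := birchStmt (remStmt caraStmt) cycStmt
  have hWall := wallStmt hBirch (pairStmt hBirch)
  have hFz := fzStmt caraStmt
  have hClos := closStmt hWall
  have hField := fieldStmt hClos (hfunStmt hClos hWall) (badStmt hFz hWall) fcStmt fhStmt hFz hWall
  intro d r A hd hr hA hc h
  exact (Brief.concl_iff r A).2 (main (finStmt (geoStmt hBU hField) hypStmt) gen1Stmt
    (gen2Stmt hypStmt) d r A hd hr (fun i => (Brief.isArr_iff (A i)).1 (hA i)) hc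
    (h.imp (Brief.noDir_iff r A).1 (Brief.genPos_iff A).1))

end Pool.Agent.Results.MP_c05127_co.PlaneSections
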