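import Pool.Agent.Lib.MP_c05127_co.PO.All

/-!
MP_c05127_co: the Tverberg-Vrecica type statement for regression depth, when all numbers of parts are
powers of one prime `p` and `p k` is even, for arrangements in general position, or without a direction
parallel to `r i` members of `A i` for every `i`.
-/

open Pool.Agent.Lib.MP_c05127_co

namespace Pool.Agent.Results.MP_c05127_co.PrimePowers

/-- Let `1 ≤ k ≤ d`, let `p` be a prime such that `p k` is even, let `r 1, ..., r (d-k+1)` be powers of
`p` (the power `1` is allowed) and let `A i` be arrangements of `(k + 1) (r i - 1) + 1` hyperplanes of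
`ℝ^d`.  If no direction is parallel to at least `r i` members of `A i` for every `i`, or if the
arrangements are disjoint and in general position, then there are a `k`-dimensional linear subspace `L`,
a point `q ∈ L` and partitions of the `A i` into `r i` parts of regression depth at least one at `q`
in `L`. -/
theorem result :
    ∀ (p d k : ℕ) (r : Fin (d - k + 1) → ℕ) (A : Fin (d - k + 1) → Finset (Brief.Aff d)),
      p.Prime → Even (p * k) → 1 ≤ k → k ≤ d → (∀ i, ∃ e, r i = p ^ e) → (∀ i, Brief.IsArr (A i)) →
      (∀ i, (A i).card = (k + 1) * (r i - 1) + 1) → (PP.NoDirK r A ∨ PP.GenPosK A) →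
      PP.ConclK k r A :=
  PP.allFinalP

end Pool.Agent.Results.MP_c05127_co.PrimePowers
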